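import Pool.Agent.H65R2.HG.P_BASE
import Pool.Agent.H65R2.HG.P_CONJ
import Pool.Agent.H65R2.HG.P_COSET
import Pool.Agent.H65R2.HG.P_DBL
import Pool.Agent.H65R2.HG.P_EXAM
import Pool.Agent.H65R2.HG.P_EXT1
import Pool.Agent.H65R2.HG.P_FIN
import Pool.Agent.H65R2.HG.P_FINAL
import Pool.Agent.H65R2.HG.P_HYP
import Pool.Agent.H65R2.HG.P_INDEX
import Pool.Agent.H65R2.HG.P_INF
import Pool.Agent.H65R2.HG.P_ISO
import Pool.Agent.H65R2.HG.P_ISOH
import Pool.Agent.H65R2.HG.P_LEN
import Pool.Agent.H65R2.HG.P_MODEL
import Pool.Agent.H65R2.HG.P_MOVE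
import Pool.Agent.H65R2.HG.P_NAT
import Pool.Agent.H65R2.HG.P_PHI
import Pool.Agent.H65R2.HG.P_PRE
import Pool.Agent.H65R2.HG.P_QUOT
import Pool.Agent.H65R2.HG.P_RL
import Pool.Agent.H65R2.HG.P_ROW
import Pool.Agent.H65R2.HG.P_SIZE
import Pool.Agent.H65R2.HG.P_SMALL
import Pool.Agent.H65R2.HG.P_STEP
import Pool.Agent.H65R2.HG.P_SWAP
import Pool.Agent.H65R2.HG.P_SYL
import Pool.Agent.H65R2.HG.P_TOWER
import Pool.Agent.H65R2.HG.P_WEYL
import Pool.Agent.H65R2.HG.P_ZZKL

/-!
# Self-similar actions of hyperbolic groups need very large alphabets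
-/

set_option autoImplicit false

namespace Pool.Agent.Results.MP_505b0b_al.AlphabetTower

open Pool.Agent.H65R2.HG Monoid

/-- Word-hyperbolic groups, exactly as in the frozen statement: for some finite generating set,
the metric of the Cayley graph satisfies Gromov's four-point condition. -/
def Hyperbolic (G : Type) [Group G] : Prop :=
  ∃ S : Finset G, Subgroup.closure (S : Set G) = ⊤ ∧
    ∃ Γ : SimpleGraph G, Γ = SimpleGraph.fromRel (fun a b : G => ∃ s ∈ S, b = a * s) ∧
      ∃ δ : ℕ, ∀ x y z w : G,
        Γ.dist x y + Γ.dist z w ≤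
          max (Γ.dist x z + Γ.dist y w) (Γ.dist x w + Γ.dist y z) + δ

/-- The group `G` has a faithful self-similar action on the words over the alphabet `X`, exactly
as in the frozen statement. -/
def SelfSimilarOver (G : Type) [Group G] (X : Type) : Prop :=
  ∃ φ : G →* Equiv.Perm (List X), Function.Injective φ ∧
    ∀ (g : G) (x : X), ∃ (h : G) (y : X), ∀ w : List X, φ g (x :: w) = y :: φ h w

/-- The homomorphism `φ` is an action on the rooted tree `X^*` by automorphisms: the root is fixed
and children of `w` go to children of the image of `w`. -/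
def TreeAction {G : Type} [Group G] {X : Type} (φ : G →* Equiv.Perm (List X)) : Prop :=
  (∀ g, φ g [] = []) ∧ ∀ (g : G) (w : List X) (x : X), ∃ y, φ g (w ++ [x]) = φ g w ++ [y]

/-- The tower of exponentials: `1, 2, 4, 16, 65536, ...`. -/
def tower : ℕ → ℕ
  | 0 => 1
  | n + 1 => 2 ^ tower n

theorem tower_eq (n : ℕ) : tower n = tow n := by
  induction n with
  | zero => rfl
  | succ n ih => rw [tower, tow, ih]

theorem s_final : S_FINAL := by
  have hCOSET := t_COSET t_WEYL t_ROW t_CONJ
  have hDBL := t_DBL t_WEYL t_ROW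
  have hSIZE := t_SIZE t_ROW
  have hFIN := t_FIN hCOSET hDBL
  have hMOVE := t_MOVE t_CONJ
  have hBASE := t_BASE hFIN hCOSET hDBL hSIZE
  have hSTEP := t_STEP hFIN hCOSET hDBL hMOVE hSIZE t_EXT
  have hTOWER := t_TOWER hSTEP hBASE t_ALL t_COLL
  have hZZ := t_ZZ t_ALL
  have hKL := t_KL t_ALL
  have hISO := t_ISO t_NAT
  have hHYP := t_HYP (t_PRE t_SYL)
  have hINF := t_INF t_SYL
  have hINDEX := t_INDEX (t_QUOT hTOWER hZZ t_ALL t_RL t_NAT)
  have hAM := t_AMALG hTOWER t_MODEL t_RL t_NAT hKL t_PHI hISO
  have hEX := t_EXIST hTOWER t_MODEL t_RL t_NAT hKL t_SWAP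
  exact t_FINAL t_LEN hINF hHYP t_ISOH hINDEX hEX hAM

/-- Self-similar actions are actions on the rooted tree. -/
theorem treeAction_of {G : Type} [Group G] {X : Type} {φ : G →* Equiv.Perm (List X)}
    (h : ∀ (g : G) (x : X), ∃ (h : G) (y : X), ∀ w : List X, φ g (x :: w) = y :: φ h w) :
    TreeAction φ := by
  have h0 : ∀ g, φ g [] = [] := by
    intro g
    cases hg : φ g [] with
    | nil => rfl
    | cons x u =>
      exfalso
      have h1 : φ g⁻¹ (x :: u) = [] := by
        rw [← hg, ← Equiv.Perm.mul_apply, ← map_mul, inv_mul_cancel, map_one]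
        rfl
      obtain ⟨k, y, hk⟩ := h g⁻¹ x
      rw [hk] at h1
      exact List.cons_ne_nil _ _ h1
  refine ⟨h0, fun g w => ?_⟩
  induction w generalizing g with
  | nil =>
    intro x
    obtain ⟨k, y, hk⟩ := h g x
    refine ⟨y, ?_⟩
    rw [List.nil_append, hk, h0, h0]
    rfl
  | cons z w ih =>
    intro x
    obtain ⟨k, y, hk⟩ := h g z
    obtain ⟨y', hy'⟩ := ih k x
    refine ⟨y', ?_⟩
    rw [List.cons_append, hk, hk, hy']
    rfl

/-- If all proper subgroups of finite index of `G` have index larger than the size of the alphabet,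
then every action on the tree is trivial. -/
theorem trivial_of {G : Type} [Group G] {X : Type} [Fintype X] {N : ℕ}
    (hG : ∀ M : Subgroup G, M ≠ ⊤ → M.FiniteIndex → N ≤ M.index)
    (hX : Fintype.card X < N) (φ : G →* Equiv.Perm (List X)) (hφ : TreeAction φ) : φ = 1 := by
  classical
  obtain ⟨h0, h1⟩ := hφ
  have key : ∀ w : List X, ∀ g, φ g w = w := by
    intro w
    induction w using List.reverseRecOn with
    | nil => exact h0
    | append_singleton w x ih =>
      have h2 : ∀ g x, ∃ y, φ g (w ++ [x]) = w ++ [y] := by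
        intro g x
        obtain ⟨y, hy⟩ := h1 g w x
        exact ⟨y, by rw [hy, ih]⟩
      choose π hπ using h2
      let _ : MulAction G X :=
        { smul := fun g x => π g x
          one_smul := by
            intro x
            have e := hπ 1 x
            rw [map_one] at e
            have e2 : w ++ [x] = w ++ [π 1 x] := e
            have e3 := List.append_cancel_left e2
            exact (List.cons.inj e3).1.symm
          mul_smul := by
            intro g k x
            have e := hπ (g * k) x
            rw [map_mul, Equiv.Perm.mul_apply, hπ k x, hπ g (π k x)] at e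
            exact (List.cons.inj (List.append_cancel_left e)).1.symm }
      intro g
      have hst : MulAction.stabilizer G x = ⊤ := by
        by_contra hne
        have hidx : (MulAction.stabilizer G x).index = (MulAction.orbit G x).ncard :=
          MulAction.index_stabilizer G x
        have hfin : (MulAction.orbit G x).Finite := Set.toFinite _
        have hpos : (MulAction.orbit G x).ncard ≠ 0 :=
          ((Set.ncard_pos hfin).2 ⟨x, MulAction.mem_orbit_self x⟩).ne'
        have hFI : (MulAction.stabilizer G x).FiniteIndex := ⟨by rw [hidx]; exact hpos⟩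
        have h3 := hG _ hne hFI
        rw [hidx] at h3
        have h4 : (MulAction.orbit G x).ncard ≤ Fintype.card X := by
          rw [← Nat.card_eq_fintype_card]
          exact Set.ncard_le_card _
        omega
      have hg : g ∈ MulAction.stabilizer G x := by rw [hst]; trivial
      have hg2 : π g x = x := hg
      rw [hπ g x, hg2]
  apply MonoidHom.ext
  intro g
  apply Equiv.ext
  intro w
  rw [key w g]
  rfl

/-- There are infinite word-hyperbolic groups (amalgams of two finite groups) with presentations of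
total length `O(n ^ 2)` all of whose actions on `X^*` by automorphisms of the rooted tree are
trivial if `X` has fewer letters than a tower of exponentials of height `n`; in particular a
faithful self-similar action needs at least so many letters. -/
theorem result :
    ∃ C : ℕ, ∀ n : ℕ, ∃ (α : Type) (_ : Fintype α) (_ : DecidableEq α)
      (R : Finset (FreeGroup α)),
      Fintype.card α + ∑ r ∈ R, r.norm ≤ C * (n + 1) ^ 2 ∧
      Infinite (PresentedGroup (R : Set (FreeGroup α))) ∧
      Hyperbolic (PresentedGroup (R : Set (FreeGroup α))) ∧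
      (∃ (A B : Type) (_ : Group A) (_ : Finite A) (_ : Group B) (φ : Bool → B →* A),
        (∀ t, Function.Injective (φ t)) ∧
        Nonempty (PresentedGroup (R : Set (FreeGroup α)) ≃* PushoutI φ)) ∧
      (∃ M : Subgroup (PresentedGroup (R : Set (FreeGroup α))), M ≠ ⊤ ∧ M.FiniteIndex) ∧
      (∀ (X : Type) [Fintype X]
        (φ : PresentedGroup (R : Set (FreeGroup α)) →* Equiv.Perm (List X)),
        Fintype.card X < tower n → TreeAction φ → φ = 1) ∧
      ∀ (X : Type) [Fintype X],
        SelfSimilarOver (PresentedGroup (R : Set (FreeGroup α))) X → tower n ≤ Fintype.card X := by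
  obtain ⟨C, hC⟩ := s_final
  refine ⟨C, fun n => ?_⟩
  obtain ⟨α, i1, i2, R, h1, h2, h3, h4, h5, h6⟩ := hC n
  have h7 : ∀ (X : Type) [Fintype X]
      (φ : PresentedGroup (R : Set (FreeGroup α)) →* Equiv.Perm (List X)),
      Fintype.card X < tower n → TreeAction φ → φ = 1 := by
    intro X _ φ hX hφ
    rw [tower_eq] at hX
    exact trivial_of h6 hX φ hφ
  refine ⟨α, i1, i2, R, h1, h2, ?_, h4, h5, h7, ?_⟩
  · obtain ⟨S, hS, δ, hδ⟩ := h3
    exact ⟨S, hS, _, rfl, 2 * δ, hδ⟩
  · rintro X _ ⟨φ, hφ, hs⟩
    by_contra hlt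
    push Not at hlt
    have e := h7 X φ hlt (treeAction_of hs)
    obtain ⟨a, b, hab⟩ := exists_pair_ne (PresentedGroup (R : Set (FreeGroup α)))
    apply hab
    apply hφ
    rw [e]
    rfl

end Pool.Agent.Results.MP_505b0b_al.AlphabetTower
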