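import Mathlib

/-!
# Finite-index overgroups of self-similar groups are self-similar
-/

set_option autoImplicit false

namespace Pool.Agent.Results.MP_505b0b_al.FiniteIndexOvergroups

/-- The group `G` is self-similar, exactly as in the frozen statement: it has a faithful action on
the words over some finite alphabet with `g (x w) = y h (w)`. -/
def SelfSimilar (G : Type) [Group G] : Prop :=
  ∃ (X : Type) (_ : Fintype X) (φ : G →* Equiv.Perm (List X)),
    Function.Injective φ ∧
    ∀ (g : G) (x : X), ∃ (h : G) (y : X), ∀ w : List X, φ g (x :: w) = y :: φ h w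

/-- The data of a faithful self-similar action in terms of first letters and sections. -/
structure Dat (H X : Type) [Group H] where
  act : H → X → X
  sec : H → X → H
  act_mul : ∀ h k x, act (h * k) x = act h (act k x)
  sec_mul : ∀ h k x, sec (h * k) x = sec h (act k x) * sec k x
  act_one : ∀ x, act 1 x = x
  sec_one : ∀ x, sec 1 x = 1
  faithful : ∀ P : H → Prop, (∀ h, P h → ∀ x, act h x = x ∧ P (sec h x)) → ∀ h, P h → h = 1

theorem dat_of {H : Type} [Group H] {X : Type} (φ : H →* Equiv.Perm (List X))
    (hinj : Function.Injective φ)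
    (hs : ∀ (g : H) (x : X), ∃ (h : H) (y : X), ∀ w : List X, φ g (x :: w) = y :: φ h w) :
    Nonempty (Dat H X) := by
  choose sec act hφ using hs
  have h0 : ∀ g, φ g [] = [] := by
    intro g
    cases hg : φ g [] with
    | nil => rfl
    | cons x u =>
      exfalso
      have h1 : φ g⁻¹ (x :: u) = [] := by
        rw [← hg, ← Equiv.Perm.mul_apply, ← map_mul, inv_mul_cancel, map_one]
        rfl
      rw [hφ] at h1
      exact List.cons_ne_nil _ _ h1
  have hmul : ∀ h k x w, act (h * k) x :: φ (sec (h * k) x) w =
      act h (act k x) :: φ (sec h (act k x)) (φ (sec k x) w) := by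
    intro h k x w
    rw [← hφ, map_mul, Equiv.Perm.mul_apply, hφ, hφ]
  have hone : ∀ x w, act 1 x :: φ (sec 1 x) w = x :: w := by
    intro x w
    rw [← hφ, map_one]
    rfl
  refine ⟨⟨act, sec, ?_, ?_, ?_, ?_, ?_⟩⟩
  · intro h k x
    exact (List.cons.inj (hmul h k x [])).1
  · intro h k x
    apply hinj
    apply Equiv.ext
    intro w
    rw [map_mul, Equiv.Perm.mul_apply]
    exact (List.cons.inj (hmul h k x w)).2
  · intro x
    exact (List.cons.inj (hone x [])).1
  · intro x
    apply hinj
    apply Equiv.ext
    intro w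
    rw [map_one]
    exact (List.cons.inj (hone x w)).2
  · intro P hP h hh
    have key : ∀ w : List X, ∀ h, P h → φ h w = w := by
      intro w
      induction w with
      | nil => intro h _; exact h0 h
      | cons x w ih =>
        intro h hh
        rw [hφ, (hP h hh x).1, ih _ (hP h hh x).2]
    apply hinj
    apply Equiv.ext
    intro w
    rw [key w h hh, map_one]
    rfl

/-- one more letter, which is fixed and has trivial sections -/
def Dat.opt {H X : Type} [Group H] (D : Dat H X) : Dat H (Option X) where
  act h x := x.map (D.act h)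
  sec h x := match x with
    | none => 1
    | some x => D.sec h x
  act_mul h k x := by
    cases x with
    | none => rfl
    | some x => exact congrArg some (D.act_mul h k x)
  sec_mul h k x := by
    cases x with
    | none => exact (mul_one _).symm
    | some x => exact D.sec_mul h k x
  act_one x := by
    cases x with
    | none => rfl
    | some x => exact congrArg some (D.act_one x)
  sec_one x := by
    cases x with
    | none => rfl
    | some x => exact D.sec_one x
  faithful P hP h hh := by
    refine D.faithful P (fun k hk x => ?_) h hh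
    obtain ⟨h1, h2⟩ := hP k hk (some x)
    exact ⟨Option.some.inj h1, h2⟩

section induced

variable {G : Type} [Group G] {H : Subgroup G} {X : Type}

/-- the cocycle of the induced action -/
noncomputable def coc (g : G) (t : G ⧸ H) : H :=
  ⟨(Quotient.out (g • t))⁻¹ * (g * Quotient.out t), by
    rw [← QuotientGroup.eq, QuotientGroup.out_eq']
    have h : ((g * Quotient.out t : G) : G ⧸ H) = g • ((Quotient.out t : G) : G ⧸ H) := rfl
    rw [h, QuotientGroup.out_eq']⟩

theorem coc_mul (g k : G) (t : G ⧸ H) : coc (g * k) t = coc g (k • t) * coc k t := by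
  apply Subtype.ext
  show (Quotient.out ((g * k) • t))⁻¹ * (g * k * Quotient.out t) =
    (Quotient.out (g • k • t))⁻¹ * (g * Quotient.out (k • t)) *
      ((Quotient.out (k • t))⁻¹ * (k * Quotient.out t))
  rw [mul_smul]
  group

theorem coc_one (t : G ⧸ H) : coc (1 : G) t = 1 := by
  apply Subtype.ext
  show (Quotient.out ((1 : G) • t))⁻¹ * (1 * Quotient.out t) = 1
  rw [one_smul, one_mul, inv_mul_cancel]

/-- the induced action on words -/
noncomputable def Phi (D : Dat H X) : List ((G ⧸ H) × X) → G → List ((G ⧸ H) × X)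
  | [], _ => []
  | p :: w, g => (g • p.1, D.act (coc g p.1) p.2) :: Phi D w (D.sec (coc g p.1) p.2 : H)

theorem Phi_mul (D : Dat H X) (w : List ((G ⧸ H) × X)) : ∀ g k : G,
    Phi D w (g * k) = Phi D (Phi D w k) g := by
  induction w with
  | nil => intro g k; rfl
  | cons p w ih =>
    intro g k
    rw [Phi, Phi, Phi, mul_smul, coc_mul, D.act_mul, D.sec_mul, Subgroup.coe_mul, ih]

theorem Phi_one (D : Dat H X) (w : List ((G ⧸ H) × X)) : Phi D w (1 : G) = w := by
  induction w with
  | nil => rfl
  | cons p w ih =>
    rw [Phi, one_smul, coc_one, D.act_one, D.sec_one, Subgroup.coe_one, ih]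

/-- the induced action as a homomorphism -/
noncomputable def Psi (D : Dat H X) : G →* Equiv.Perm (List ((G ⧸ H) × X)) where
  toFun g :=
    { toFun := fun w => Phi D w g
      invFun := fun w => Phi D w g⁻¹
      left_inv := fun w => by
        show Phi D (Phi D w g) g⁻¹ = w
        rw [← Phi_mul, inv_mul_cancel, Phi_one]
      right_inv := fun w => by
        show Phi D (Phi D w g⁻¹) g = w
        rw [← Phi_mul, mul_inv_cancel, Phi_one] }
  map_one' := Equiv.ext fun w => Phi_one D w
  map_mul' g k := Equiv.ext fun w => Phi_mul D w g k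

theorem Psi_injective (D : Dat H X) (x0 : X) : Function.Injective (Psi D) := by
  rw [injective_iff_map_eq_one]
  have hker : ∀ g : G, Psi D g = 1 → ∀ (t : G ⧸ H) (x : X), g • t = t ∧
      D.act (coc g t) x = x ∧ Psi D ((D.sec (coc g t) x : H) : G) = 1 := by
    intro g hg t x
    have h1 : ∀ w, Phi D ((t, x) :: w) g = (t, x) :: w := fun w => by
      have := DFunLike.congr_fun hg ((t, x) :: w)
      exact this
    have h2 := fun w => List.cons.inj (h1 w)
    refine ⟨congrArg Prod.fst (h2 []).1, congrArg Prod.snd (h2 []).1, ?_⟩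
    apply Equiv.ext
    intro w
    exact (h2 w).2
  have hH : ∀ h : H, Psi D (h : G) = 1 → h = 1 := by
    refine D.faithful _ fun h hh x => ?_
    let t0 : G ⧸ H := ((1 : G) : G ⧸ H)
    let s0 : G := Quotient.out t0
    have hK : Psi D (s0 * h * s0⁻¹) = 1 := by
      rw [map_mul, map_mul, hh, mul_one, ← map_mul, mul_inv_cancel, map_one]
    obtain ⟨h1, h2, h3⟩ := hker _ hK t0 x
    have hc : coc (s0 * h * s0⁻¹) t0 = h := by
      apply Subtype.ext
      show (Quotient.out ((s0 * h * s0⁻¹) • t0))⁻¹ * (s0 * h * s0⁻¹ * Quotient.out t0) = h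
      rw [h1]
      show s0⁻¹ * (s0 * h * s0⁻¹ * s0) = h
      group
    rw [hc] at h2 h3
    exact ⟨h2, h3⟩
  intro g hg
  have h1 := (hker g hg ((1 : G) : G ⧸ H) x0).1
  have h2 : g ∈ H := by
    have h3 : ((g : G) : G ⧸ H) = ((1 : G) : G ⧸ H) := by
      have h4 : g • ((1 : G) : G ⧸ H) = ((g * 1 : G) : G ⧸ H) := rfl
      rw [← mul_one g, ← h4]
      exact h1
    rw [eq_comm, QuotientGroup.eq, inv_one, one_mul] at h3
    exact h3
  have h5 := hH ⟨g, h2⟩ hg
  exact congrArg Subtype.val h5

end induced

/-- **Finite-index overgroups of self-similar groups are self-similar.** -/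
theorem result (G : Type) [Group G] (H : Subgroup G) (hH : H.FiniteIndex)
    (h : SelfSimilar H) : SelfSimilar G := by
  obtain ⟨X, _, φ, hinj, hs⟩ := h
  obtain ⟨D⟩ := dat_of φ hinj hs
  classical
  have : Fintype (G ⧸ H) := Fintype.ofFinite _
  refine ⟨(G ⧸ H) × Option X, inferInstance, Psi D.opt, Psi_injective D.opt none, ?_⟩
  rintro g ⟨t, x⟩
  exact ⟨((D.opt.sec (coc g t) x : H) : G), (g • t, D.opt.act (coc g t) x), fun w => rfl⟩

end Pool.Agent.Results.MP_505b0b_al.FiniteIndexOvergroups
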