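import Pool.Agent.Results.MP_505b0b_al.FiniteIndexOvergroups

/-!
# Groups commensurable with the modular group are self-similar
-/

set_option autoImplicit false

namespace Pool.Agent.Results.MP_505b0b_al.ModularCommensurable

open Pool.Agent.Results.MP_505b0b_al.FiniteIndexOvergroups
open Matrix MatrixGroups CongruenceSubgroup

/-- The data given by a virtual endomorphism. -/
noncomputable def virt {G : Type} [Group G] (K : Subgroup G) (f : K →* G)
    (hf : ∀ P : G → Prop, (∀ h, P h → ∀ t : G ⧸ K, h • t = t ∧ P (f (coc h t))) →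
      ∀ h, P h → h = 1) : Dat G (G ⧸ K) where
  act g t := g • t
  sec g t := f (coc g t)
  act_mul g k t := mul_smul g k t
  sec_mul g k t := by rw [coc_mul, map_mul]
  act_one t := one_smul _ t
  sec_one t := by rw [coc_one, map_one]
  faithful := hf

/-- transport along an isomorphism -/
def trans {G H X : Type} [Group G] [Group H] (e : H ≃* G) (D : Dat G X) : Dat H X where
  act h x := D.act (e h) x
  sec h x := e.symm (D.sec (e h) x)
  act_mul h k x := by rw [map_mul, D.act_mul]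
  sec_mul h k x := by rw [map_mul, D.sec_mul, map_mul]
  act_one x := by rw [map_one, D.act_one]
  sec_one x := by rw [map_one, D.sec_one, map_one]
  faithful P hP h hh := by
    have h1 := D.faithful (fun g => P (e.symm g)) (fun g hg x => by
      obtain ⟨h1, h2⟩ := hP _ hg x
      rw [MulEquiv.apply_symm_apply] at h1 h2
      exact ⟨h1, h2⟩) (e h) (by rw [MulEquiv.symm_apply_apply]; exact hh)
    exact e.injective (by rw [h1, map_one])

theorem dvd_of_mem {A : SL(2, ℤ)} (h : A ∈ Gamma0 2) : (2 : ℤ) ∣ A 1 0 := by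
  rw [Gamma0_mem] at h
  exact (ZMod.intCast_zmod_eq_zero_iff_dvd _ 2).1 h

/-- conjugation by the diagonal matrix with entries `2, 1` -/
def fm (A : Gamma0 2) : SL(2, ℤ) :=
  ⟨!![A.1 0 0, 2 * A.1 0 1; A.1 1 0 / 2, A.1 1 1], by
    obtain ⟨c, hc⟩ := dvd_of_mem A.2
    have hd := A.1.2
    rw [Matrix.det_fin_two] at hd
    rw [Matrix.det_fin_two_of, hc, Int.mul_ediv_cancel_left _ two_ne_zero]
    have hc' : (A.1.1 1 0 : ℤ) = 2 * c := hc
    rw [hc'] at hd
    linear_combination hd⟩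

theorem fm_10 (A : Gamma0 2) : 2 * (fm A) 1 0 = A.1 1 0 := by
  obtain ⟨c, hc⟩ := dvd_of_mem A.2
  show 2 * (A.1 1 0 / 2) = A.1 1 0
  rw [hc, Int.mul_ediv_cancel_left _ two_ne_zero]

theorem fm_00 (A : Gamma0 2) : (fm A) 0 0 = A.1 0 0 := rfl
theorem fm_01 (A : Gamma0 2) : (fm A) 0 1 = 2 * A.1 0 1 := rfl
theorem fm_11 (A : Gamma0 2) : (fm A) 1 1 = A.1 1 1 := rfl

theorem mul_00 (A B : SL(2, ℤ)) : (A * B) 0 0 = A 0 0 * B 0 0 + A 0 1 * B 1 0 := by
  show (A.1 * B.1) 0 0 = _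
  rw [Matrix.mul_apply, Fin.sum_univ_two]
theorem mul_01 (A B : SL(2, ℤ)) : (A * B) 0 1 = A 0 0 * B 0 1 + A 0 1 * B 1 1 := by
  show (A.1 * B.1) 0 1 = _
  rw [Matrix.mul_apply, Fin.sum_univ_two]
theorem mul_10 (A B : SL(2, ℤ)) : (A * B) 1 0 = A 1 0 * B 0 0 + A 1 1 * B 1 0 := by
  show (A.1 * B.1) 1 0 = _
  rw [Matrix.mul_apply, Fin.sum_univ_two]
theorem mul_11 (A B : SL(2, ℤ)) : (A * B) 1 1 = A 1 0 * B 0 1 + A 1 1 * B 1 1 := by
  show (A.1 * B.1) 1 1 = _
  rw [Matrix.mul_apply, Fin.sum_univ_two]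

theorem sl_ext {A B : SL(2, ℤ)} (h1 : A 0 0 = B 0 0) (h2 : A 0 1 = B 0 1) (h3 : A 1 0 = B 1 0)
    (h4 : A 1 1 = B 1 1) : A = B := by
  apply Subtype.ext
  apply Matrix.ext
  intro i j
  fin_cases i <;> fin_cases j
  · exact h1
  · exact h2
  · exact h3
  · exact h4

/-- the virtual endomorphism as a homomorphism -/
def f0 : Gamma0 2 →* SL(2, ℤ) where
  toFun := fm
  map_one' := by
    apply sl_ext
    · rfl
    · rfl
    · rfl
    · rfl
  map_mul' A B := by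
    apply sl_ext
    · rw [mul_00, fm_00, fm_00, fm_00, fm_01]
      have h1 := mul_00 A.1 B.1
      have h2 := fm_10 B
      rw [Subgroup.coe_mul, h1]
      linear_combination (-(A.1 0 1)) * h2
    · rw [mul_01, fm_01, fm_01, fm_01, fm_00, fm_11, Subgroup.coe_mul, mul_01]
      ring
    · have h1 := fm_10 (A * B)
      have h2 := fm_10 A
      have h3 := fm_10 B
      rw [mul_10, fm_00, fm_11]
      rw [Subgroup.coe_mul, mul_10] at h1
      have : 2 * (fm (A * B)) 1 0 = 2 * ((fm A) 1 0 * B.1 0 0 + A.1 1 1 * (fm B) 1 0) := by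
        linear_combination h1 - B.1 0 0 * h2 - A.1 1 1 * h3
      exact mul_left_cancel₀ two_ne_zero this
    · rw [mul_11, fm_11, fm_11, fm_11, fm_01, Subgroup.coe_mul, mul_11]
      have h2 := fm_10 A
      linear_combination (-(B.1 0 1)) * h2

/-- the domain of the virtual endomorphism -/
def K0 (Γ : Subgroup SL(2, ℤ)) : Subgroup SL(2, ℤ) := (Γ.comap f0).map (Gamma0 2).subtype

instance K0_fin (Γ : Subgroup SL(2, ℤ)) [Γ.FiniteIndex] : (K0 Γ).FiniteIndex := by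
  refine ⟨?_⟩
  rw [K0, Subgroup.index_map_subtype]
  refine mul_ne_zero ?_ ?_
  · rw [Subgroup.index_comap]
    exact Subgroup.FiniteIndex.index_ne_zero (H := Γ.subgroupOf f0.range)
  · exact Subgroup.FiniteIndex.index_ne_zero

theorem mem_K0 {Γ : Subgroup SL(2, ℤ)} {A : SL(2, ℤ)} (h : A ∈ K0 Γ) :
    ∃ hA : A ∈ Gamma0 2, f0 ⟨A, hA⟩ ∈ Γ := by
  obtain ⟨B, hB, rfl⟩ := h
  exact ⟨B.2, hB⟩

/-- the inclusion of the domain in `Gamma0 2` -/
def incl (Γ : Subgroup SL(2, ℤ)) : (K0 Γ).subgroupOf Γ →* Gamma0 2 where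
  toFun A := ⟨A.1.1, (mem_K0 A.2).1⟩
  map_one' := rfl
  map_mul' _ _ := rfl

/-- the virtual endomorphism of `Γ` -/
def fΓ (Γ : Subgroup SL(2, ℤ)) : (K0 Γ).subgroupOf Γ →* Γ :=
  (f0.comp (incl Γ)).codRestrict Γ (fun A => (mem_K0 A.2).2)

theorem fΓ_10 (Γ : Subgroup SL(2, ℤ)) (A : (K0 Γ).subgroupOf Γ) :
    2 * (fΓ Γ A).1 1 0 = A.1.1 1 0 := fm_10 (incl Γ A)

/-- elements of a set as in the condition of faithfulness are upper triangular, and so are their
conjugates -/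
theorem level (Γ : Subgroup SL(2, ℤ)) (P : Γ → Prop)
    (hP : ∀ h, P h → ∀ t : Γ ⧸ (K0 Γ).subgroupOf Γ, h • t = t ∧ P (fΓ Γ (coc h t))) (n : ℕ) :
    ∀ h, P h → ∀ g : Γ, (2 : ℤ) ^ n ∣ (g⁻¹ * h * g).1 1 0 := by
  induction n with
  | zero => intro h _ g; rw [pow_zero]; exact one_dvd _
  | succ n ih =>
    intro h hh g
    set t : Γ ⧸ (K0 Γ).subgroupOf Γ := (g : Γ ⧸ (K0 Γ).subgroupOf Γ) with ht
    obtain ⟨h1, h2⟩ := hP h hh t
    set s : Γ := Quotient.out t with hs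
    have hγ : s⁻¹ * g ∈ (K0 Γ).subgroupOf Γ := by
      rw [← QuotientGroup.eq, hs, QuotientGroup.out_eq']
    let γ : (K0 Γ).subgroupOf Γ := ⟨s⁻¹ * g, hγ⟩
    have h3 := ih _ h2 (fΓ Γ γ)
    rw [← map_inv, ← map_mul, ← map_mul] at h3
    have h4 := fΓ_10 Γ (γ⁻¹ * coc h t * γ)
    have h5 : ((γ⁻¹ * coc h t * γ : (K0 Γ).subgroupOf Γ) : Γ) = g⁻¹ * h * g := by
      show (s⁻¹ * g)⁻¹ * ((Quotient.out (h • t))⁻¹ * (h * Quotient.out t)) * (s⁻¹ * g) = _
      rw [h1, ← hs]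
      group
    rw [h5] at h4
    rw [← h4, pow_succ']
    exact mul_dvd_mul_left 2 h3

theorem zero_of {m : ℤ} (h : ∀ n : ℕ, (2 : ℤ) ^ n ∣ m) : m = 0 := by
  by_contra hm
  have h1 := h m.natAbs
  have h2 := Int.natAbs_dvd_natAbs.2 h1
  rw [Int.natAbs_pow] at h2
  have h3 := Nat.le_of_dvd (Int.natAbs_pos.2 hm) h2
  have h4 : m.natAbs < 2 ^ m.natAbs := Nat.lt_two_pow_self
  have h5 : Int.natAbs 2 = 2 := rfl
  rw [h5] at h3
  omega

/-- the lower unipotent matrix -/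
def lo (m : ℤ) : SL(2, ℤ) := ⟨!![1, 0; m, 1], by rw [Matrix.det_fin_two_of]; ring⟩

theorem lo_mul (m n : ℤ) : lo m * lo n = lo (m + n) := by
  apply sl_ext
  · rw [mul_00]; show (1 : ℤ) * 1 + 0 * n = 1; ring
  · rw [mul_01]; show (1 : ℤ) * 0 + 0 * 1 = 0; ring
  · rw [mul_10]; show m * 1 + 1 * n = m + n; ring
  · rw [mul_11]; show m * 0 + 1 * 1 = (1 : ℤ); ring

theorem lo_zero : lo 0 = 1 := by
  apply sl_ext
  · rfl
  · rfl
  · rfl
  · rfl

theorem lo_pow (m : ℕ) : lo 1 ^ m = lo m := by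
  induction m with
  | zero => rw [pow_zero, Nat.cast_zero, lo_zero]
  | succ m ih => rw [pow_succ, ih, lo_mul, Nat.cast_succ]

theorem lo_inv (m : ℤ) : (lo m)⁻¹ = lo (-m) := by
  rw [inv_eq_iff_mul_eq_one, lo_mul, add_neg_cancel, lo_zero]

theorem conj_10 (A : SL(2, ℤ)) (m : ℤ) : ((lo m)⁻¹ * A * lo m) 1 0 =
    A 1 0 + m * (A 1 1 - A 0 0) - m ^ 2 * A 0 1 := by
  rw [lo_inv, mul_10, mul_10, mul_11]
  show (-m * A 0 0 + 1 * A 1 0) * 1 + (-m * A 0 1 + 1 * A 1 1) * m = _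
  ring

theorem faithfulΓ (Γ : Subgroup SL(2, ℤ)) [Γ.FiniteIndex] (hneg : (-1 : SL(2, ℤ)) ∉ Γ)
    (P : Γ → Prop)
    (hP : ∀ h, P h → ∀ t : Γ ⧸ (K0 Γ).subgroupOf Γ, h • t = t ∧ P (fΓ Γ (coc h t))) :
    ∀ h, P h → h = 1 := by
  intro h hh
  obtain ⟨m, hm0, hm⟩ : ∃ m : ℕ, 0 < m ∧ lo 1 ^ m ∈ Γ := by
    obtain ⟨m, hm0, _, hm⟩ := Subgroup.exists_pow_mem_of_index_ne_zero
      (Subgroup.FiniteIndex.index_ne_zero (H := Γ)) (lo 1)
    exact ⟨m, hm0, hm⟩
  rw [lo_pow] at hm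
  have key : ∀ g : Γ, (g⁻¹ * h * g).1 1 0 = 0 := fun g =>
    zero_of fun n => level Γ P hP n h hh g
  have k0 : h.1 1 0 = 0 := by
    have := key 1
    rwa [inv_one, one_mul, mul_one] at this
  have k1 : ((lo m)⁻¹ * h.1 * lo m) 1 0 = 0 := key ⟨lo m, hm⟩
  have k2 : ((lo (m + m))⁻¹ * h.1 * lo (m + m)) 1 0 = 0 := by
    refine key ⟨lo (m + m), ?_⟩
    rw [← lo_mul]
    exact Γ.mul_mem hm hm
  rw [conj_10, k0] at k1 k2
  have hm' : (m : ℤ) ≠ 0 := by exact_mod_cast hm0.ne'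
  have e1 : h.1 0 1 = 0 := by
    have : (m : ℤ) ^ 2 * (2 * h.1 0 1) = 0 := by linear_combination 2 * k1 - k2
    rcases mul_eq_zero.1 this with h3 | h3
    · exact absurd h3 (pow_ne_zero 2 hm')
    · rcases mul_eq_zero.1 h3 with h4 | h4
      · norm_num at h4
      · exact h4
  have e2 : h.1 1 1 = h.1 0 0 := by
    rw [e1] at k1
    have : (m : ℤ) * (h.1 1 1 - h.1 0 0) = 0 := by linear_combination k1
    rcases mul_eq_zero.1 this with h3 | h3
    · exact absurd h3 hm'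
    · linarith
  have hdet : h.1 0 0 * h.1 1 1 - h.1 0 1 * h.1 1 0 = 1 := by
    have := h.1.2
    rwa [Matrix.det_fin_two] at this
  rw [e1, e2] at hdet
  have hsq : h.1 0 0 * h.1 0 0 = 1 := by linear_combination hdet
  rcases mul_self_eq_one_iff.1 hsq with h3 | h3
  · apply Subtype.ext
    apply sl_ext
    · exact h3
    · exact e1
    · exact k0
    · exact e2.trans h3
  · exfalso
    apply hneg
    have : h.1 = -1 := by
      apply sl_ext
      · exact h3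
      · exact e1
      · exact k0
      · exact e2.trans h3
    rw [← this]
    exact h.2

theorem torsionFree_case (G : Type) [Group G] (H : Subgroup G) (hH : H.FiniteIndex)
    (Γ : Subgroup SL(2, ℤ)) (hΓ : Γ.FiniteIndex) (hneg : (-1 : SL(2, ℤ)) ∉ Γ) (e : H ≃* Γ) :
    SelfSimilar G := by
  classical
  let D : Dat H (Γ ⧸ (K0 Γ).subgroupOf Γ) :=
    trans e (virt ((K0 Γ).subgroupOf Γ) (fΓ Γ) (faithfulΓ Γ hneg))
  have : Fintype (G ⧸ H) := Fintype.ofFinite _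
  have : Fintype (Γ ⧸ (K0 Γ).subgroupOf Γ) := Fintype.ofFinite _
  refine ⟨(G ⧸ H) × Option (Γ ⧸ (K0 Γ).subgroupOf Γ), inferInstance, Psi D.opt,
    Psi_injective D.opt none, ?_⟩
  rintro g ⟨t, x⟩
  exact ⟨((D.opt.sec (coc g t) x : H) : G), (g • t, D.opt.act (coc g t) x), fun w => rfl⟩

/-- **Groups commensurable with the modular group are self-similar.** If a subgroup of finite index
of `G` is isomorphic to a subgroup of finite index of `SL(2, ℤ)`, then `G` is self-similar. -/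
theorem result (G : Type) [Group G] (H : Subgroup G) (hH : H.FiniteIndex)
    (e : H →* SL(2, ℤ)) (he : Function.Injective e) (hr : e.range.FiniteIndex) :
    SelfSimilar G := by
  let K : Subgroup H := (Gamma 3).comap e
  have h1 : (K.map H.subtype).FiniteIndex := by
    refine ⟨?_⟩
    rw [Subgroup.index_map_subtype]
    refine mul_ne_zero ?_ hH.index_ne_zero
    rw [Subgroup.index_comap]
    exact Subgroup.FiniteIndex.index_ne_zero (H := (Gamma 3).subgroupOf e.range)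
  have h2 : (K.map e).FiniteIndex := by
    show (((Gamma 3).comap e).map e).FiniteIndex
    rw [Subgroup.map_comap_eq]
    infer_instance
  have h3 : (-1 : SL(2, ℤ)) ∉ K.map e := by
    intro h
    obtain ⟨x, hx, hx1⟩ := h
    have h4 : e x ∈ Gamma 3 := hx
    rw [hx1, Gamma_mem] at h4
    have h5 : (((-1 : SL(2, ℤ)) 0 0 : ℤ) : ZMod 3) = 1 := h4.1
    have h6 : ((-1 : SL(2, ℤ)) 0 0 : ℤ) = -1 := rfl
    rw [h6] at h5
    revert h5
    decide
  exact torsionFree_case G (K.map H.subtype) h1 (K.map e) h2 h3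
    ((K.equivMapOfInjective H.subtype H.subtype_injective).symm.trans
      (K.equivMapOfInjective e he))

end Pool.Agent.Results.MP_505b0b_al.ModularCommensurable
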